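import Mathlib

set_option autoImplicit false

/-!
# A graph with automorphism group `Γ`, for every finite group `Γ`

The vertices are `a`, `b`, the symbols `c s`, rows `x g` and columns `y h` (the set `P`), and the
cells `z g h` and thresholds `t j` (the set `Q`). Both `P` and `Q` are cliques, `b` is joined to
`a` and to all of `P`, and `p ∈ P` is joined to `q ∈ Q` iff `R p q` fails, where the cell `z g h`
is related to `x g`, `y h` and `c (g⁻¹ h)`, the threshold `t j` is related to the `c s` with
`e s ≤ j`, and, if `j = n`, also to all `x g`.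
-/

namespace Pool.Agent.X59.HG

inductive PT (Γ : Type) : Type
  | c (s : Γ)
  | x (g : Γ)
  | y (h : Γ)

inductive QT (Γ : Type) (n : ℕ) : Type
  | z (g h : Γ)
  | t (j : Fin (n + 1))

inductive VT (Γ : Type) (n : ℕ) : Type
  | a
  | b
  | p (u : PT Γ)
  | q (w : QT Γ n)

section

variable {Γ : Type} [Group Γ] {n : ℕ} (e : Γ ≃ Fin n)

def R : PT Γ → QT Γ n → Prop
  | .c s, .z g h => s = g⁻¹ * h
  | .x g', .z g _ => g' = g
  | .y h', .z _ h => h' = h
  | .c s, .t j => (e s : ℕ) ≤ (j : ℕ)
  | .x _, .t j => (j : ℕ) = n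
  | .y _, .t _ => False

def adj : VT Γ n → VT Γ n → Prop
  | .a, .b => True
  | .b, .a => True
  | .b, .p _ => True
  | .p _, .b => True
  | .p u, .p v => u ≠ v
  | .q u, .q v => u ≠ v
  | .p u, .q w => ¬ R e u w
  | .q w, .p u => ¬ R e u w
  | _, _ => False

/-- The graph. -/
def X : SimpleGraph (VT Γ n) where
  Adj := adj e
  symm := ⟨by
    intro u v h
    cases u <;> cases v <;> first | exact h | exact trivial | exact Ne.symm h | exact h.elim⟩
  loopless := ⟨by
    intro u h
    cases u <;> first | exact h | exact h rfl⟩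

/-- The action of `Γ` on the vertices. -/
def act (k : Γ) : VT Γ n → VT Γ n
  | .a => .a
  | .b => .b
  | .p (.c s) => .p (.c s)
  | .p (.x g) => .p (.x (k * g))
  | .p (.y h) => .p (.y (k * h))
  | .q (.z g h) => .q (.z (k * g) (k * h))
  | .q (.t j) => .q (.t j)

theorem act_one (v : VT Γ n) : act (1 : Γ) v = v := by
  rcases v with _ | _ | (_ | _ | _) | (_ | _) <;> simp [act]

theorem act_mul (k l : Γ) (v : VT Γ n) : act (k * l) v = act k (act l v) := by
  rcases v with _ | _ | (_ | _ | _) | (_ | _) <;> simp [act, mul_assoc]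

theorem adj_act (k : Γ) (u v : VT Γ n) : adj e (act k u) (act k v) ↔ adj e u v := by
  rcases u with _ | _ | (_ | _ | _) | (_ | _) <;> rcases v with _ | _ | (_ | _ | _) | (_ | _) <;>
    simp [act, adj, R, mul_assoc]

/-- The action as a homomorphism. -/
def hom : Γ →* (X e ≃g X e) where
  toFun k :=
    { toFun := act k
      invFun := act k⁻¹
      left_inv := fun v => by rw [← act_mul, inv_mul_cancel, act_one]
      right_inv := fun v => by rw [← act_mul, mul_inv_cancel, act_one]
      map_rel_iff' := fun {u v} => adj_act e k u v }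
  map_one' := by
    ext v
    exact act_one v
  map_mul' k l := by
    ext v
    exact act_mul k l v

theorem hom_apply (k : Γ) (v : VT Γ n) : hom e k v = act k v := rfl

theorem hom_injective : Function.Injective (hom e) := by
  intro k l h
  have h1 : act k (VT.p (PT.x (1 : Γ)) : VT Γ n) = act l (VT.p (PT.x 1)) := by
    rw [← hom_apply e, ← hom_apply e, h]
  simp only [act, mul_one] at h1
  injection h1 with h2
  injection h2

end

section surj

variable {Γ : Type} [Group Γ] {n : ℕ} (e : Γ ≃ Fin n)

/-- a vertex with at most one neighbour -/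
def Thin (v : VT Γ n) : Prop := ∀ u u' : VT Γ n, (X e).Adj v u → (X e).Adj v u' → u = u'

theorem thin_iff (v : VT Γ n) : Thin e v ↔ v = .a := by
  have hn : 1 ≤ n := by
    have := (e 1).2
    omega
  constructor
  · intro h
    rcases v with _ | _ | u | w
    · rfl
    · have := h .a (.p (.x 1)) trivial trivial
      cases this
    · exfalso
      rcases u with s | g | g
      · have := h .b (.p (.x 1)) trivial (by change PT.c s ≠ PT.x 1; simp)
        cases this
      · have := h .b (.p (.c 1)) trivial (by change PT.x g ≠ PT.c 1; simp)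
        cases this
      · have := h .b (.p (.c 1)) trivial (by change PT.y g ≠ PT.c 1; simp)
        cases this
    · exfalso
      rcases w with ⟨g, g'⟩ | j
      · have := h (.q (.t ⟨0, by omega⟩)) (.q (.t ⟨1, by omega⟩))
          (by change QT.z g g' ≠ QT.t _; simp) (by change QT.z g g' ≠ QT.t _; simp)
        simp at this
      · obtain ⟨j', hj'⟩ : ∃ j' : Fin (n + 1), j ≠ j' := by
          by_cases h0 : j = ⟨0, by omega⟩
          · exact ⟨⟨1, by omega⟩, by rw [h0]; simp⟩
          · exact ⟨⟨0, by omega⟩, h0⟩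
        have := h (.q (.z 1 1)) (.q (.t j'))
          (by change QT.t j ≠ QT.z 1 1; simp)
          (by change QT.t j ≠ QT.t j'; intro hh; injection hh with hh; exact hj' hh)
        simp at this
  · rintro rfl u u' hu hu'
    cases u <;> cases u' <;> first | rfl | exact hu.elim | exact hu'.elim

variable (φ : X e ≃g X e)

theorem map_a : φ .a = .a := by
  rw [← thin_iff e]
  intro u u' hu hu'
  have h1 : (X e).Adj .a (φ.symm u) := by
    rw [← φ.map_adj_iff]; simpa using hu
  have h2 : (X e).Adj .a (φ.symm u') := by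
    rw [← φ.map_adj_iff]; simpa using hu'
  have := (thin_iff e .a).2 rfl _ _ h1 h2
  exact φ.symm.injective this

theorem map_b : φ .b = .b := by
  have h : (X e).Adj (φ .a) (φ .b) := φ.map_adj_iff.2 trivial
  rw [map_a] at h
  cases hb : φ .b with
  | b => rfl
  | a => rw [hb] at h; exact h.elim
  | p u => rw [hb] at h; exact h.elim
  | q w => rw [hb] at h; exact h.elim

theorem map_p (u : PT Γ) : ∃ u', φ (.p u) = .p u' := by
  have h : (X e).Adj (φ .b) (φ (.p u)) := φ.map_adj_iff.2 trivial
  rw [map_b] at h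
  cases hb : φ (.p u) with
  | b => rw [hb] at h; exact h.elim
  | a =>
    rw [← map_a e φ] at hb
    have := φ.injective hb
    cases this
  | p u' => exact ⟨u', rfl⟩
  | q w => rw [hb] at h; exact h.elim

theorem map_q (w : QT Γ n) : ∃ w', φ (.q w) = .q w' := by
  have h : ¬ (X e).Adj (φ .b) (φ (.q w)) := fun h => (φ.map_adj_iff.1 h : adj e .b (.q w))
  rw [map_b] at h
  cases hb : φ (.q w) with
  | b =>
    rw [← map_b e φ] at hb
    have := φ.injective hb
    cases this
  | a =>
    rw [← map_a e φ] at hb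
    have := φ.injective hb
    cases this
  | p u' => rw [hb] at h; exact (h trivial).elim
  | q w' => exact ⟨w', rfl⟩

/-- the map on `P` -/
noncomputable def pf (u : PT Γ) : PT Γ := (map_p e φ u).choose

theorem pf_spec (u : PT Γ) : φ (.p u) = .p (pf e φ u) := (map_p e φ u).choose_spec

/-- the map on `Q` -/
noncomputable def qf (w : QT Γ n) : QT Γ n := (map_q e φ w).choose

theorem qf_spec (w : QT Γ n) : φ (.q w) = .q (qf e φ w) := (map_q e φ w).choose_spec

/-- the permutation of `P` -/
noncomputable def pe : PT Γ ≃ PT Γ where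
  toFun := pf e φ
  invFun := pf e φ.symm
  left_inv u := by
    have h : VT.p (n := n) (pf e φ.symm (pf e φ u)) = VT.p u := by
      rw [← pf_spec, ← pf_spec]; simp
    injection h
  right_inv u := by
    have h : VT.p (n := n) (pf e φ (pf e φ.symm u)) = VT.p u := by
      rw [← pf_spec, ← pf_spec]; simp
    injection h

theorem pe_spec (u : PT Γ) : φ (.p u) = .p (pe e φ u) := pf_spec e φ u

/-- the permutation of `Q` -/
noncomputable def qe : QT Γ n ≃ QT Γ n where
  toFun := qf e φ
  invFun := qf e φ.symm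
  left_inv u := by
    have h : VT.q (qf e φ.symm (qf e φ u)) = VT.q u := by
      rw [← qf_spec, ← qf_spec]; simp
    injection h
  right_inv u := by
    have h : VT.q (qf e φ (qf e φ.symm u)) = VT.q u := by
      rw [← qf_spec, ← qf_spec]; simp
    injection h

theorem qe_spec (w : QT Γ n) : φ (.q w) = .q (qe e φ w) := qf_spec e φ w

theorem R_iff (u : PT Γ) (w : QT Γ n) : R e u w ↔ R e (pe e φ u) (qe e φ w) := by
  have h : (X e).Adj (φ (.p u)) (φ (.q w)) ↔ (X e).Adj (.p u) (.q w) := φ.map_adj_iff
  rw [pe_spec, qe_spec] at h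
  have h' : ¬ R e (pe e φ u) (qe e φ w) ↔ ¬ R e u w := h
  tauto

/-- the degree -/
noncomputable def D (u : PT Γ) : ℕ := Nat.card {w : QT Γ n // R e u w}

theorem D_pe (u : PT Γ) : D e (pe e φ u) = D e u :=
  (Nat.card_congr ((qe e φ).subtypeEquiv (fun w => R_iff e φ u w))).symm

theorem D_y (h : Γ) : D e (.y h) = n := by
  have hE : {w : QT Γ n // R e (.y h) w} ≃ Γ :=
    { toFun := fun w => match w with
        | ⟨.z g _, _⟩ => g
        | ⟨.t _, hw⟩ => hw.elim
      invFun := fun g => ⟨.z g h, rfl⟩
      left_inv := by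
        rintro ⟨w, hw⟩
        cases w with
        | z g h' =>
          have : h = h' := hw
          subst this
          rfl
        | t j => exact hw.elim
      right_inv := fun g => rfl }
  rw [D, Nat.card_congr (hE.trans e), Nat.card_fin]

theorem D_x (g : Γ) : D e (.x g) = n + 1 := by
  have hE : {w : QT Γ n // R e (.x g) w} ≃ Γ ⊕ Unit :=
    { toFun := fun w => match w with
        | ⟨.z _ h, _⟩ => .inl h
        | ⟨.t _, _⟩ => .inr ()
      invFun := fun v => match v with
        | .inl h => ⟨.z g h, rfl⟩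
        | .inr _ => ⟨.t ⟨n, by omega⟩, rfl⟩
      left_inv := by
        rintro ⟨w, hw⟩
        cases w with
        | z g' h' =>
          have : g = g' := hw
          subst this
          rfl
        | t j =>
          have : (j : ℕ) = n := hw
          have h2 : (⟨n, by omega⟩ : Fin (n + 1)) = j := Fin.ext this.symm
          exact Subtype.ext (congrArg QT.t h2)
      right_inv := by rintro (h | ⟨⟩) <;> rfl }
  rw [D, Nat.card_congr (hE.trans (Equiv.sumCongr e (Equiv.refl Unit))), Nat.card_sum, Nat.card_fin,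
    Nat.card_unique]

theorem D_c (s : Γ) : D e (.c s) = n + (n + 1 - (e s : ℕ)) := by
  have hE : {w : QT Γ n // R e (.c s) w} ≃ Γ ⊕ {j : Fin (n + 1) // (e s : ℕ) ≤ (j : ℕ)} :=
    { toFun := fun w => match w with
        | ⟨.z g _, _⟩ => .inl g
        | ⟨.t j, hj⟩ => .inr ⟨j, hj⟩
      invFun := fun v => match v with
        | .inl g => ⟨.z g (g * s), by simp [R]⟩
        | .inr ⟨j, hj⟩ => ⟨.t j, hj⟩
      left_inv := by
        rintro ⟨w, hw⟩
        cases w with
        | z g' h' =>
          have : s = g'⁻¹ * h' := hw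
          subst this
          simp
        | t j => rfl
      right_inv := by rintro (h | ⟨⟩) <;> rfl }
  have hs := (e s).2
  have hcard : Nat.card {j : Fin (n + 1) // (e s : ℕ) ≤ (j : ℕ)} = n + 1 - (e s : ℕ) := by
    have h1 : ∀ j : Fin (n + 1), (e s : ℕ) ≤ (j : ℕ) ↔ j ∈ Finset.Ici (⟨(e s : ℕ), by omega⟩ : Fin (n + 1)) := by
      intro j
      rw [Finset.mem_Ici, Fin.le_def]
    rw [Nat.card_eq_fintype_card, Fintype.card_of_subtype _ (fun j => (h1 j).symm), Fin.card_Ici]
  rw [D, Nat.card_congr (hE.trans (Equiv.sumCongr e (Equiv.refl _))), Nat.card_sum, Nat.card_fin,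
    hcard]

theorem pe_c (s : Γ) : pe e φ (.c s) = .c s := by
  have h := D_pe e φ (.c s)
  have hs := (e s).2
  rw [D_c] at h
  cases hu : pe e φ (.c s) with
  | c s' =>
    rw [hu, D_c] at h
    have hs' := (e s').2
    have : e s = e s' := Fin.ext (by omega)
    rw [e.injective this]
  | x g => rw [hu, D_x] at h; omega
  | y g => rw [hu, D_y] at h; omega

theorem pe_x (g : Γ) : ∃ g', pe e φ (.x g) = .x g' := by
  have h := D_pe e φ (.x g)
  rw [D_x] at h
  cases hu : pe e φ (.x g) with
  | c s' => rw [hu, D_c] at h; have hs' := (e s').2; omega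
  | x g' => exact ⟨g', rfl⟩
  | y g => rw [hu, D_y] at h; omega

theorem pe_y (g : Γ) : ∃ g', pe e φ (.y g) = .y g' := by
  have h := D_pe e φ (.y g)
  rw [D_y] at h
  cases hu : pe e φ (.y g) with
  | c s' => rw [hu, D_c] at h; have hs' := (e s').2; omega
  | x g' => rw [hu, D_x] at h; omega
  | y g' => exact ⟨g', rfl⟩

theorem qe_z (g h : Γ) : ∃ g' h', qe e φ (.z g h) = .z g' h' ∧ pe e φ (.x g) = .x g' ∧
    pe e φ (.y h) = .y h' ∧ g⁻¹ * h = g'⁻¹ * h' := by
  obtain ⟨g1, hg1⟩ := pe_x e φ g
  obtain ⟨h1, hh1⟩ := pe_y e φ h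
  have r1 := (R_iff e φ (.x g) (.z g h)).1 rfl
  have r2 := (R_iff e φ (.y h) (.z g h)).1 rfl
  have r3 := (R_iff e φ (.c (g⁻¹ * h)) (.z g h)).1 rfl
  rw [hg1] at r1
  rw [hh1] at r2
  rw [pe_c] at r3
  cases hq : qe e φ (.z g h) with
  | t j => rw [hq] at r2; exact r2.elim
  | z g' h' =>
    rw [hq] at r1 r2 r3
    have e1 : g1 = g' := r1
    have e2 : h1 = h' := r2
    subst e1; subst e2
    exact ⟨g1, h1, rfl, hg1, hh1, r3⟩

theorem qe_t (j : Fin (n + 1)) : qe e φ (.t j) = .t j := by
  cases hq : qe e φ (.t j) with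
  | z g' h' =>
    exfalso
    -- the column `y h'` is the image of some `u`
    obtain ⟨u, hu⟩ := (pe e φ).surjective (.y h')
    have h1 : R e u (.t j) := by
      rw [R_iff e φ, hu, hq]
      rfl
    have h2 := D_pe e φ u
    rw [hu, D_y] at h2
    cases u with
    | c s => rw [D_c] at h2; have := (e s).2; omega
    | x g => rw [D_x] at h2; omega
    | y g => exact h1.elim
  | t j' =>
    obtain ⟨g1, hg1⟩ := pe_x e φ (1 : Γ)
    have hx : ((j : ℕ) = n ↔ (j' : ℕ) = n) := by
      have := R_iff e φ (.x 1) (.t j)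
      rw [hg1, hq] at this
      exact this
    have hc : ∀ s : Γ, ((e s : ℕ) ≤ (j : ℕ) ↔ (e s : ℕ) ≤ (j' : ℕ)) := by
      intro s
      have := R_iff e φ (.c s) (.t j)
      rw [pe_c, hq] at this
      exact this
    have hj := j.2
    have hj' := j'.2
    have : j = j' := by
      apply Fin.ext
      by_cases h1 : (j : ℕ) = n
      · rw [h1, hx.1 h1]
      · have h2 : (j' : ℕ) ≠ n := fun h => h1 (hx.2 h)
        have a1 := hc (e.symm ⟨j, by omega⟩)
        have a2 := hc (e.symm ⟨j', by omega⟩)
        simp only [Equiv.apply_symm_apply] at a1 a2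
        omega
    rw [this]

theorem hom_surjective : Function.Surjective (hom e) := by
  intro φ
  obtain ⟨k, hk⟩ := pe_x e φ (1 : Γ)
  have hy : ∀ h : Γ, pe e φ (.y h) = .y (k * h) := by
    intro h
    obtain ⟨g', h', _, h2, h3, h4⟩ := qe_z e φ 1 h
    rw [hk] at h2
    injection h2 with h2
    subst h2
    rw [h3]
    have : h' = k * h := by
      rw [inv_one, one_mul] at h4
      rw [h4, mul_inv_cancel_left]
    rw [this]
  have hx : ∀ g : Γ, pe e φ (.x g) = .x (k * g) := by
    intro g
    obtain ⟨g', h', _, h2, h3, h4⟩ := qe_z e φ g g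
    rw [hy] at h3
    injection h3 with h3
    subst h3
    rw [h2]
    rw [inv_mul_cancel] at h4
    have : g' = k * g := by
      rw [eq_comm, inv_mul_eq_one] at h4
      exact h4
    rw [this]
  refine ⟨k, ?_⟩
  ext v
  rw [hom_apply]
  rcases v with _ | _ | u | w
  · exact (map_a e φ).symm
  · exact (map_b e φ).symm
  · rw [pe_spec]
    rcases u with s | g | g
    · rw [pe_c]; rfl
    · rw [hx]; rfl
    · rw [hy]; rfl
  · rw [qe_spec]
    rcases w with ⟨g, h⟩ | j
    · obtain ⟨g', h', h1, h2, h3, _⟩ := qe_z e φ g h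
      rw [hx] at h2
      rw [hy] at h3
      injection h2 with h2
      injection h3 with h3
      rw [h1, ← h2, ← h3]
      rfl
    · rw [qe_t]; rfl

/-- the automorphism group is `Γ` -/
noncomputable def mulEquiv : Γ ≃* (X e ≃g X e) :=
  MulEquiv.ofBijective (hom e) ⟨hom_injective e, hom_surjective e⟩

end surj

end Pool.Agent.X59.HG
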