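import Pool.Agent.X59.HG.Grp

set_option autoImplicit false

/-!
# The graphs `X` are intersection graphs of connected subgraphs of subdivisions of one graph
-/

namespace Pool.Agent.X59.HG

/-- The vertices of the subdivision of `Y` in which the edge `ij`, `i < j`, is replaced by a path
with the `ℓ i j` new inner vertices `(i, j, 0), ..., (i, j, ℓ i j - 1)`. -/
abbrev SubV {m : ℕ} (Y : SimpleGraph (Fin m)) (ℓ : Fin m → Fin m → ℕ) : Type :=
  Fin m ⊕ {t : Fin m × Fin m × ℕ // t.1 < t.2.1 ∧ Y.Adj t.1 t.2.1 ∧ t.2.2 < ℓ t.1 t.2.1}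

/-- Consecutive vertices on the path `i, (i, j, 0), ..., (i, j, ℓ i j - 1), j` that replaces the
edge `ij` with `i < j`. -/
def Step {m : ℕ} (Y : SimpleGraph (Fin m)) (ℓ : Fin m → Fin m → ℕ) : SubV Y ℓ → SubV Y ℓ → Prop
  | .inl i, .inl j => i < j ∧ Y.Adj i j ∧ ℓ i j = 0
  | .inl i, .inr t => i = t.1.1 ∧ t.1.2.2 = 0
  | .inr t, .inl j => j = t.1.2.1 ∧ t.1.2.2 + 1 = ℓ t.1.1 t.1.2.1
  | .inr t, .inr s => t.1.1 = s.1.1 ∧ t.1.2.1 = s.1.2.1 ∧ s.1.2.2 = t.1.2.2 + 1

/-- The subdivision of `Y` with `ℓ i j` new vertices on the edge `ij`, `i < j`. -/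
def subdiv {m : ℕ} (Y : SimpleGraph (Fin m)) (ℓ : Fin m → Fin m → ℕ) : SimpleGraph (SubV Y ℓ) :=
  SimpleGraph.fromRel (Step Y ℓ)

/-- `X` belongs to the class of `Y`: it is the intersection graph of a family of connected
subgraphs of some subdivision of `Y`. -/
def InClass {m : ℕ} (Y : SimpleGraph (Fin m)) {V : Type} (X : SimpleGraph V) : Prop :=
  ∃ (ℓ : Fin m → Fin m → ℕ) (S : V → (subdiv Y ℓ).Subgraph),
    (∀ v, (S v).Connected) ∧
    ∀ u v, u ≠ v → (X.Adj u v ↔ ((S u).verts ∩ (S v).verts).Nonempty)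

/-- The edges of the graph `Y0`: `K_{2,6}` with sides `{0, 7}` and `{1, ..., 6}`, and the path
`0, 8, 9`. -/
def Yrel (i j : Fin 10) : Prop :=
  (i.val = 0 ∧ 1 ≤ j.val ∧ j.val ≤ 6) ∨ (1 ≤ i.val ∧ i.val ≤ 6 ∧ j.val = 7) ∨
    (i.val = 0 ∧ j.val = 8) ∨ (i.val = 8 ∧ j.val = 9)

/-- `K_{2,6}` with a pendant path of length two at a vertex of degree six. -/
def Y0 : SimpleGraph (Fin 10) := SimpleGraph.fromRel Yrel

/-- The numbers of new vertices. -/
def ell (n : ℕ) (_ j : Fin 10) : ℕ := if j.val = 7 then n - 1 else 0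

theorem Y0_adj {i j : Fin 10} (h : i < j) : Y0.Adj i j ↔ Yrel i j := by
  rw [Y0, SimpleGraph.fromRel_adj]
  constructor
  · rintro ⟨_, h1 | h1⟩
    · exact h1
    · have : i.val < j.val := h
      unfold Yrel at h1
      omega
  · intro h1
    exact ⟨ne_of_lt h, Or.inl h1⟩

/-- The set of vertices of the subdivision around `0`. -/
def PS (n : ℕ) (f : ℕ → ℕ) : Set (SubV Y0 (ell n)) := fun w =>
  match w with
  | .inl i => i.val = 0 ∨ i.val = 8 ∨ (1 ≤ i.val ∧ i.val ≤ 6 ∧ 0 < f i.val)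
  | .inr t => t.1.2.2 + 1 < f t.1.1.val

/-- The set of vertices of the subdivision around `7`. -/
def QS (n : ℕ) (f : ℕ → ℕ) : Set (SubV Y0 (ell n)) := fun w =>
  match w with
  | .inl i => i.val = 7 ∨ (1 ≤ i.val ∧ i.val ≤ 6 ∧ f i.val = 0)
  | .inr t => f t.1.1.val ≤ t.1.2.2 + 1

theorem inr_spec {n : ℕ} (t : {t : Fin 10 × Fin 10 × ℕ //
    t.1 < t.2.1 ∧ Y0.Adj t.1 t.2.1 ∧ t.2.2 < ell n t.1 t.2.1}) :
    1 ≤ t.1.1.val ∧ t.1.1.val ≤ 6 ∧ t.1.2.1.val = 7 ∧ t.1.2.2 < n - 1 := by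
  obtain ⟨⟨i, j, k⟩, h1, h2, h3⟩ := t
  change i < j at h1
  change Y0.Adj i j at h2
  change k < ell n i j at h3
  change 1 ≤ i.val ∧ i.val ≤ 6 ∧ j.val = 7 ∧ k < n - 1
  rw [Y0_adj h1] at h2
  unfold ell at h3
  unfold Yrel at h2
  split_ifs at h3 with h4
  · omega
  · omega

/-- the inner vertex `k` of the path from `i` to `7` -/
def leg {n : ℕ} (i : Fin 10) (hi : 1 ≤ i.val ∧ i.val ≤ 6) (k : ℕ) (hk : k < n - 1) :
    SubV Y0 (ell n) :=
  .inr ⟨(i, 7, k), by
    have h1 : i < (7 : Fin 10) := by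
      change i.val < 7
      omega
    exact ⟨h1, (Y0_adj h1).2 (Or.inr (Or.inl ⟨hi.1, hi.2, rfl⟩)), by simpa [ell] using hk⟩⟩

theorem inr_eq_leg {n : ℕ} (t : {t : Fin 10 × Fin 10 × ℕ //
    t.1 < t.2.1 ∧ Y0.Adj t.1 t.2.1 ∧ t.2.2 < ell n t.1 t.2.1}) :
    (.inr t : SubV Y0 (ell n)) = leg t.1.1 ⟨(inr_spec t).1, (inr_spec t).2.1⟩ t.1.2.2
      (inr_spec t).2.2.2 := by
  have h := (inr_spec t).2.2.1
  obtain ⟨⟨i, j, k⟩, h1, h2, h3⟩ := t
  have hj : j = 7 := Fin.ext h
  subst hj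
  rfl

theorem inter_PQ {n : ℕ} {f g : ℕ → ℕ} (hf : ∀ i, f i ≤ n) :
    (PS n f ∩ QS n g).Nonempty ↔ ∃ i : ℕ, 1 ≤ i ∧ i ≤ 6 ∧ g i < f i := by
  constructor
  · rintro ⟨w, hp, hq⟩
    cases w with
    | inl i =>
      change i.val = 0 ∨ i.val = 8 ∨ (1 ≤ i.val ∧ i.val ≤ 6 ∧ 0 < f i.val) at hp
      change i.val = 7 ∨ (1 ≤ i.val ∧ i.val ≤ 6 ∧ g i.val = 0) at hq
      exact ⟨i.val, by omega, by omega, by omega⟩
    | inr t =>
      change t.1.2.2 + 1 < f t.1.1.val at hp
      change g t.1.1.val ≤ t.1.2.2 + 1 at hq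
      have h := inr_spec t
      exact ⟨t.1.1.val, h.1, h.2.1, by omega⟩
  · rintro ⟨i, h1, h2, h3⟩
    have hi := hf i
    by_cases h0 : g i = 0
    · refine ⟨.inl ⟨i, by omega⟩, ?_, ?_⟩
      · change i = 0 ∨ i = 8 ∨ (1 ≤ i ∧ i ≤ 6 ∧ 0 < f i)
        omega
      · change i = 7 ∨ (1 ≤ i ∧ i ≤ 6 ∧ g i = 0)
        omega
    · refine ⟨leg ⟨i, by omega⟩ ⟨h1, h2⟩ (g i - 1) (by omega), ?_, ?_⟩
      · change g i - 1 + 1 < f i
        omega
      · change g i ≤ g i - 1 + 1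
        omega

/-! ### Connectivity -/

/-- reachable inside `s` -/
def Rch {V : Type} (G : SimpleGraph V) (s : Set V) (u v : V) : Prop :=
  ∃ (hu : u ∈ s) (hv : v ∈ s), (G.induce s).Reachable ⟨u, hu⟩ ⟨v, hv⟩

theorem Rch.refl {V : Type} {G : SimpleGraph V} {s : Set V} {u : V} (h : u ∈ s) : Rch G s u u :=
  ⟨h, h, SimpleGraph.Reachable.refl _⟩

theorem Rch.step {V : Type} {G : SimpleGraph V} {s : Set V} {u v w : V} (h : Rch G s u v)
    (hw : w ∈ s) (ha : G.Adj v w) : Rch G s u w := by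
  obtain ⟨hu, hv, h⟩ := h
  refine ⟨hu, hw, h.trans ?_⟩
  have : (G.induce s).Adj ⟨v, hv⟩ ⟨w, hw⟩ := ha
  exact this.reachable

theorem connected_of_Rch {V : Type} {G : SimpleGraph V} {s : Set V} {u : V} (hu : u ∈ s)
    (h : ∀ v ∈ s, Rch G s u v) : ((⊤ : G.Subgraph).induce s).Connected := by
  rw [← SimpleGraph.connected_induce_iff, SimpleGraph.connected_iff_exists_forall_reachable]
  refine ⟨⟨u, hu⟩, ?_⟩
  rintro ⟨v, hv⟩
  obtain ⟨_, _, h⟩ := h v hv
  exact h

theorem sub_adj {n : ℕ} {u v : SubV Y0 (ell n)} (h : u ≠ v) (h' : Step Y0 (ell n) u v) :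
    (subdiv Y0 (ell n)).Adj u v := by
  rw [subdiv, SimpleGraph.fromRel_adj]
  exact ⟨h, Or.inl h'⟩

theorem adj_inl {n : ℕ} {i j : Fin 10} (h : i < j) (h1 : Yrel i j) (h2 : ell n i j = 0) :
    (subdiv Y0 (ell n)).Adj (.inl i) (.inl j) := by
  refine sub_adj ?_ ⟨h, (Y0_adj h).2 h1, h2⟩
  intro hh
  injection hh with hh
  exact absurd h (by rw [hh]; exact lt_irrefl _)

theorem adj_first {n : ℕ} (i : Fin 10) (hi : 1 ≤ i.val ∧ i.val ≤ 6) (hk : 0 < n - 1) :
    (subdiv Y0 (ell n)).Adj (.inl i) (leg i hi 0 hk) :=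
  sub_adj (by unfold leg; simp) ⟨rfl, rfl⟩

theorem adj_next {n : ℕ} (i : Fin 10) (hi : 1 ≤ i.val ∧ i.val ≤ 6) (k : ℕ) (hk : k + 1 < n - 1) :
    (subdiv Y0 (ell n)).Adj (leg i hi k (by omega)) (leg i hi (k + 1) hk) :=
  sub_adj (by unfold leg; simp) ⟨rfl, rfl, rfl⟩

theorem adj_last {n : ℕ} (i : Fin 10) (hi : 1 ≤ i.val ∧ i.val ≤ 6) (k : ℕ) (hk : k + 1 = n - 1) :
    (subdiv Y0 (ell n)).Adj (leg i hi k (by omega)) (.inl 7) :=
  sub_adj (by unfold leg; simp) ⟨rfl, by
    change k + 1 = ell n i 7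
    simpa [ell] using hk⟩

theorem PS_connected {n : ℕ} (f : ℕ → ℕ) :
    ((⊤ : (subdiv Y0 (ell n)).Subgraph).induce (PS n f)).Connected := by
  have h0 : (.inl 0 : SubV Y0 (ell n)) ∈ PS n f := Or.inl rfl
  have hroot : ∀ i : Fin 10, 1 ≤ i.val ∧ i.val ≤ 6 → 0 < f i.val →
      Rch (subdiv Y0 (ell n)) (PS n f) (.inl 0) (.inl i) := by
    intro i hi hf
    refine (Rch.refl h0).step (Or.inr (Or.inr ⟨hi.1, hi.2, hf⟩)) (adj_inl ?_ ?_ ?_)
    · change 0 < i.val
      omega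
    · exact Or.inl ⟨rfl, hi.1, hi.2⟩
    · unfold ell
      rw [if_neg (by omega)]
  have hleg : ∀ (k : ℕ) (i : Fin 10) (hi : 1 ≤ i.val ∧ i.val ≤ 6) (hk : k < n - 1),
      leg i hi k hk ∈ PS n f → Rch (subdiv Y0 (ell n)) (PS n f) (.inl 0) (leg i hi k hk) := by
    intro k
    induction k with
    | zero =>
      intro i hi hk hv
      have hv' : 0 + 1 < f i.val := hv
      exact (hroot i hi (by omega)).step hv (adj_first i hi hk)
    | succ k ih =>
      intro i hi hk hv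
      have hv' : k + 1 + 1 < f i.val := hv
      have hk' : (leg i hi k (by omega) : SubV Y0 (ell n)) ∈ PS n f := by
        change k + 1 < f i.val
        omega
      exact (ih i hi (by omega) hk').step hv (adj_next i hi k hk)
  apply connected_of_Rch h0
  intro v hv
  cases v with
  | inl i =>
    change i.val = 0 ∨ i.val = 8 ∨ (1 ≤ i.val ∧ i.val ≤ 6 ∧ 0 < f i.val) at hv
    rcases hv with hv | hv | hv
    · have : i = 0 := Fin.ext hv
      subst this
      exact Rch.refl h0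
    · have : i = 8 := Fin.ext hv
      subst this
      exact (Rch.refl h0).step (Or.inr (Or.inl rfl)) (adj_inl (by decide)
        (Or.inr (Or.inr (Or.inl ⟨rfl, rfl⟩))) rfl)
    · exact hroot i ⟨hv.1, hv.2.1⟩ hv.2.2
  | inr t =>
    rw [inr_eq_leg] at hv ⊢
    exact hleg _ _ _ _ hv

theorem QS_connected {n : ℕ} (f : ℕ → ℕ) :
    ((⊤ : (subdiv Y0 (ell n)).Subgraph).induce (QS n f)).Connected := by
  have h0 : (.inl 7 : SubV Y0 (ell n)) ∈ QS n f := Or.inl rfl
  have hleg : ∀ (r : ℕ) (i : Fin 10) (hi : 1 ≤ i.val ∧ i.val ≤ 6) (k : ℕ) (hk : k < n - 1),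
      k + 1 + r = n - 1 → leg i hi k hk ∈ QS n f →
      Rch (subdiv Y0 (ell n)) (QS n f) (.inl 7) (leg i hi k hk) := by
    intro r
    induction r with
    | zero =>
      intro i hi k hk hr hv
      exact (Rch.refl h0).step hv (adj_last i hi k (by omega)).symm
    | succ r ih =>
      intro i hi k hk hr hv
      have hv' : f i.val ≤ k + 1 := hv
      have hk' : (leg i hi (k + 1) (by omega) : SubV Y0 (ell n)) ∈ QS n f := by
        change f i.val ≤ k + 1 + 1
        omega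
      exact (ih i hi (k + 1) (by omega) (by omega) hk').step hv (adj_next i hi k (by omega)).symm
  apply connected_of_Rch h0
  intro v hv
  cases v with
  | inl i =>
    have hv0 := hv
    change i.val = 7 ∨ (1 ≤ i.val ∧ i.val ≤ 6 ∧ f i.val = 0) at hv
    rcases hv with hv | hv
    · have : i = 7 := Fin.ext hv
      subst this
      exact Rch.refl h0
    · have hi : 1 ≤ i.val ∧ i.val ≤ 6 := ⟨hv.1, hv.2.1⟩
      by_cases hn : n - 1 = 0
      · refine (Rch.refl h0).step hv0 (adj_inl ?_ ?_ ?_).symm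
        · change i.val < 7
          omega
        · exact Or.inr (Or.inl ⟨hi.1, hi.2, rfl⟩)
        · simpa [ell] using hn
      · have hk : (leg i hi 0 (by omega) : SubV Y0 (ell n)) ∈ QS n f := by
          change f i.val ≤ 0 + 1
          omega
        exact (hleg (n - 1 - 1) i hi 0 (by omega) (by omega) hk).step hv0
          (adj_first i hi (by omega)).symm
  | inr t =>
    rw [inr_eq_leg] at hv ⊢
    have ht := inr_spec t
    exact hleg (n - 1 - 1 - t.1.2.2) _ _ _ _ (by omega) hv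

/-! ### The representation -/

section

variable {Γ : Type} [Group Γ] {n : ℕ} (e : Γ ≃ Fin n)

/-- the lengths for the elements of `P` -/
def fP : PT Γ → ℕ → ℕ
  | .c s, i => if i = 1 then (e s : ℕ) + 1 else if i = 2 then n - (e s : ℕ) else 0
  | .x s, i => if i = 3 then (e s : ℕ) + 1 else if i = 4 then n - (e s : ℕ) else 0
  | .y s, i => if i = 5 then (e s : ℕ) + 1 else if i = 6 then n - (e s : ℕ) else 0

/-- the lengths for the elements of `Q` -/
def fQ : QT Γ n → ℕ → ℕ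
  | .z g h, i =>
    if i = 1 then (e (g⁻¹ * h) : ℕ) + 1 else if i = 2 then n - (e (g⁻¹ * h) : ℕ) else
    if i = 3 then (e g : ℕ) + 1 else if i = 4 then n - (e g : ℕ) else
    if i = 5 then (e h : ℕ) + 1 else n - (e h : ℕ)
  | .t j, i =>
    if i = 1 then (j : ℕ) + 1 else if i = 2 then n else
    if i = 3 then (if (j : ℕ) = n then n else 0) else if i = 4 then n else
    if i = 5 then 0 else n

omit [Group Γ] in
theorem fP_le (u : PT Γ) (i : ℕ) : fP e u i ≤ n := by
  cases u with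
  | c s => have := (e s).2; simp only [fP]; split_ifs <;> omega
  | x s => have := (e s).2; simp only [fP]; split_ifs <;> omega
  | y s => have := (e s).2; simp only [fP]; split_ifs <;> omega

omit [Group Γ] in
theorem eq_of_le_le {s s' : Γ} (h1 : (e s : ℕ) + 1 ≤ (e s' : ℕ) + 1)
    (h2 : n - (e s : ℕ) ≤ n - (e s' : ℕ)) : s = s' := by
  have := (e s).2
  have := (e s').2
  apply e.injective
  apply Fin.ext
  omega

theorem R_iff_le (u : PT Γ) (w : QT Γ n) :
    R e u w ↔ ∀ i : ℕ, 1 ≤ i → i ≤ 6 → fP e u i ≤ fQ e w i := by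
  constructor
  · intro h i h1 h2
    cases w with
    | z g k =>
      cases u with
      | c s =>
        have : s = g⁻¹ * k := h
        subst this
        simp only [fP, fQ]; split_ifs <;> omega
      | x s =>
        have : s = g := h
        subst this
        simp only [fP, fQ]; split_ifs <;> omega
      | y s =>
        have : s = k := h
        subst this
        simp only [fP, fQ]; split_ifs <;> omega
    | t j =>
      cases u with
      | c s =>
        have h : (e s : ℕ) ≤ (j : ℕ) := h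
        simp only [fP, fQ]; split_ifs <;> omega
      | x s =>
        have h : (j : ℕ) = n := h
        have := (e s).2
        simp only [fP, fQ]; split_ifs <;> omega
      | y s => exact h.elim
  · intro h
    have h1 := h 1 (by omega) (by omega)
    have h2 := h 2 (by omega) (by omega)
    have h3 := h 3 (by omega) (by omega)
    have h4 := h 4 (by omega) (by omega)
    have h5 := h 5 (by omega) (by omega)
    have h6 := h 6 (by omega) (by omega)
    cases w with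
    | z g k =>
      cases u with
      | c s => exact eq_of_le_le e (by simpa [fP, fQ] using h1) (by simpa [fP, fQ] using h2)
      | x s => exact eq_of_le_le e (by simpa [fP, fQ] using h3) (by simpa [fP, fQ] using h4)
      | y s => exact eq_of_le_le e (by simpa [fP, fQ] using h5) (by simpa [fP, fQ] using h6)
    | t j =>
      cases u with
      | c s =>
        change (e s : ℕ) ≤ (j : ℕ)
        simpa [fP, fQ] using h1
      | x s =>
        change (j : ℕ) = n
        by_contra hj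
        simp [fP, fQ, hj] at h3
      | y s => simp [fP, fQ] at h5

/-- the sets -/
def VS : VT Γ n → Set (SubV Y0 (ell n))
  | .a => {.inl 9}
  | .b => {.inl 8, .inl 9}
  | .p u => PS n (fP e u)
  | .q w => QS n (fQ e w)

theorem VS_connected (v : VT Γ n) :
    ((⊤ : (subdiv Y0 (ell n)).Subgraph).induce (VS e v)).Connected := by
  cases v with
  | p u => exact PS_connected _
  | q w => exact QS_connected _
  | a =>
    have h0 : (.inl 9 : SubV Y0 (ell n)) ∈ VS e (.a : VT Γ n) := rfl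
    apply connected_of_Rch h0
    intro v hv
    have : v = .inl 9 := hv
    subst this
    exact Rch.refl h0
  | b =>
    have h8 : (.inl 8 : SubV Y0 (ell n)) ∈ VS e (.b : VT Γ n) := Or.inl rfl
    have h9 : (.inl 9 : SubV Y0 (ell n)) ∈ VS e (.b : VT Γ n) := Or.inr rfl
    apply connected_of_Rch h8
    intro v hv
    rcases hv with hv | hv
    · subst hv
      exact Rch.refl h8
    · have : v = .inl 9 := hv
      subst this
      exact (Rch.refl h8).step h9 (adj_inl (by decide) (Or.inr (Or.inr (Or.inr ⟨rfl, rfl⟩))) rfl)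

theorem nine_notMem_PS (f : ℕ → ℕ) : (.inl 9 : SubV Y0 (ell n)) ∉ PS n f := by
  intro h
  change (9 : Fin 10).val = 0 ∨ (9 : Fin 10).val = 8 ∨
    (1 ≤ (9 : Fin 10).val ∧ (9 : Fin 10).val ≤ 6 ∧ 0 < f (9 : Fin 10).val) at h
  have : (9 : Fin 10).val = 9 := rfl
  omega

theorem nine_notMem_QS (f : ℕ → ℕ) : (.inl 9 : SubV Y0 (ell n)) ∉ QS n f := by
  intro h
  change (9 : Fin 10).val = 7 ∨
    (1 ≤ (9 : Fin 10).val ∧ (9 : Fin 10).val ≤ 6 ∧ f (9 : Fin 10).val = 0) at h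
  have : (9 : Fin 10).val = 9 := rfl
  omega

theorem eight_notMem_QS (f : ℕ → ℕ) : (.inl 8 : SubV Y0 (ell n)) ∉ QS n f := by
  intro h
  change (8 : Fin 10).val = 7 ∨
    (1 ≤ (8 : Fin 10).val ∧ (8 : Fin 10).val ≤ 6 ∧ f (8 : Fin 10).val = 0) at h
  have : (8 : Fin 10).val = 8 := rfl
  omega

theorem adj_comm' (u v : VT Γ n) : adj e u v ↔ adj e v u :=
  ⟨fun h => (X e).symm.symm _ _ h, fun h => (X e).symm.symm _ _ h⟩

theorem adj_iff (u v : VT Γ n) (huv : u ≠ v) : adj e u v ↔ (VS e u ∩ VS e v).Nonempty := by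
  have key : ∀ (u v : VT Γ n), (adj e u v ↔ (VS e u ∩ VS e v).Nonempty) →
      (adj e v u ↔ (VS e v ∩ VS e u).Nonempty) := by
    intro u v h
    rw [adj_comm', h, Set.inter_comm]
  have hab : adj e (.a : VT Γ n) .b ↔ (VS e (.a : VT Γ n) ∩ VS e .b).Nonempty :=
    ⟨fun _ => ⟨.inl 9, rfl, Or.inr rfl⟩, fun _ => trivial⟩
  have hap : ∀ u : PT Γ, adj e (.a : VT Γ n) (.p u) ↔ (VS e (.a : VT Γ n) ∩ VS e (.p u)).Nonempty := by
    intro u
    refine ⟨fun h => h.elim, ?_⟩
    rintro ⟨w, hw, hw'⟩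
    have : w = .inl 9 := hw
    subst this
    exact (nine_notMem_PS _ hw').elim
  have haq : ∀ u : QT Γ n, adj e (.a : VT Γ n) (.q u) ↔
      (VS e (.a : VT Γ n) ∩ VS e (.q u)).Nonempty := by
    intro u
    refine ⟨fun h => h.elim, ?_⟩
    rintro ⟨w, hw, hw'⟩
    have : w = .inl 9 := hw
    subst this
    exact (nine_notMem_QS _ hw').elim
  have hbp : ∀ u : PT Γ, adj e (.b : VT Γ n) (.p u) ↔ (VS e (.b : VT Γ n) ∩ VS e (.p u)).Nonempty :=
    fun u => ⟨fun _ => ⟨.inl 8, Or.inl rfl, Or.inr (Or.inl rfl)⟩, fun _ => trivial⟩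
  have hbq : ∀ u : QT Γ n, adj e (.b : VT Γ n) (.q u) ↔
      (VS e (.b : VT Γ n) ∩ VS e (.q u)).Nonempty := by
    intro u
    refine ⟨fun h => h.elim, ?_⟩
    rintro ⟨w, hw, hw'⟩
    rcases hw with hw | hw
    · subst hw
      exact (eight_notMem_QS _ hw').elim
    · have : w = .inl 9 := hw
      subst this
      exact (nine_notMem_QS _ hw').elim
  have hpq : ∀ (u : PT Γ) (w : QT Γ n), adj e (.p u) (.q w) ↔
      (VS e (.p u) ∩ VS e (.q w)).Nonempty := by
    intro u w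
    change ¬ R e u w ↔ (PS n (fP e u) ∩ QS n (fQ e w)).Nonempty
    rw [inter_PQ (fP_le e u), R_iff_le]
    constructor
    · intro h
      by_contra hc
      exact h fun i h1 h2 => not_lt.1 fun h3 => hc ⟨i, h1, h2, h3⟩
    · rintro ⟨i, h1, h2, h3⟩ h
      exact absurd (h i h1 h2) (not_le.2 h3)
  cases u with
  | a =>
    cases v with
    | a => exact (huv rfl).elim
    | b => exact hab
    | p v => exact hap v
    | q w => exact haq w
  | b =>
    cases v with
    | a => exact key _ _ hab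
    | b => exact (huv rfl).elim
    | p v => exact hbp v
    | q w => exact hbq w
  | p u =>
    cases v with
    | a => exact key _ _ (hap u)
    | b => exact key _ _ (hbp u)
    | p v =>
      refine ⟨fun _ => ⟨.inl 0, Or.inl rfl, Or.inl rfl⟩, fun _ h => huv ?_⟩
      rw [h]
    | q w => exact hpq u w
  | q w =>
    cases v with
    | a => exact key _ _ (haq w)
    | b => exact key _ _ (hbq w)
    | p v => exact key _ _ (hpq v w)
    | q v =>
      refine ⟨fun _ => ⟨.inl 7, Or.inl rfl, Or.inl rfl⟩, fun _ h => huv ?_⟩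
      rw [h]

theorem inClass : InClass Y0 (X e) :=
  ⟨ell n, fun v => (⊤ : (subdiv Y0 (ell n)).Subgraph).induce (VS e v), VS_connected e,
    fun u v huv => adj_iff e u v huv⟩

end

instance finite_VT {Γ : Type} [Finite Γ] {n : ℕ} : Finite (VT Γ n) := by
  let F : (Bool ⊕ (Γ ⊕ (Γ ⊕ Γ))) ⊕ ((Γ × Γ) ⊕ Fin (n + 1)) → VT Γ n := fun v =>
    match v with
    | .inl (.inl true) => .a
    | .inl (.inl false) => .b
    | .inl (.inr (.inl s)) => .p (.c s)
    | .inl (.inr (.inr (.inl s))) => .p (.x s)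
    | .inl (.inr (.inr (.inr s))) => .p (.y s)
    | .inr (.inl (g, h)) => .q (.z g h)
    | .inr (.inr j) => .q (.t j)
  apply Finite.of_surjective F
  intro v
  rcases v with _ | _ | (s | s | s) | (⟨g, h⟩ | j)
  · exact ⟨.inl (.inl true), rfl⟩
  · exact ⟨.inl (.inl false), rfl⟩
  · exact ⟨.inl (.inr (.inl s)), rfl⟩
  · exact ⟨.inl (.inr (.inr (.inl s))), rfl⟩
  · exact ⟨.inl (.inr (.inr (.inr s))), rfl⟩
  · exact ⟨.inr (.inl (g, h)), rfl⟩
  · exact ⟨.inr (.inr j), rfl⟩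

theorem main : ∃ (m : ℕ) (Y : SimpleGraph (Fin m)), ∀ (Γ : Type) [Group Γ] [Finite Γ],
    ∃ (V : Type) (_ : Finite V) (G : SimpleGraph V), InClass Y G ∧ Nonempty (Γ ≃* (G ≃g G)) := by
  refine ⟨10, Y0, ?_⟩
  intro Γ _ _
  obtain ⟨n, ⟨e⟩⟩ := Finite.exists_equiv_fin Γ
  exact ⟨VT Γ n, inferInstance, X e, inClass e, ⟨mulEquiv e⟩⟩

end Pool.Agent.X59.HG
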